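import Pool.Agent.Lib.MP_efb7ef_gt.T.Main2

/-! The magic number of an ellipse with any axis ratio, as an infimum over one parameter. -/

open Pool.Agent.Lib.MP_efb7ef_gt Pool.Agent.Lib.MP_efb7ef_gt.T

theorem Pool.Agent.Results.MP_efb7ef_gt.AllRatios.result (a b e : ℝ) (hb : 0 < b) (hab : b ≤ a)
    (he : e = b ^ 2 / a ^ 2) :
    ∃ M : ℝ, IsGLB (val e '' {α | 0 < α ∧ α < 3 ∧ α < a / b ∧
        (Summable fun k => ∫ s in (0 : ℝ)..α, ph e α k s) ∧
        Summable fun k => ∫ s in (0 : ℝ)..α, kk e 0 s * ph e α k s}) M ∧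
      ∀ m : ℝ, IsMagic (ellipse a b) m ↔ m = a * M :=
  formula2 hb hab he
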