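import Pool.Agent.Lib.MP_efb7ef_gt.P3.Fun

/-! The Taylor series of the magic number of an ellipse at the circle satisfies no algebraic
differential equation over the real span of the rational series with positive 3-adic radius. -/

open Pool.Agent.Lib.MP_efb7ef_gt

theorem Pool.Agent.Results.MP_efb7ef_gt.NoClosedForm.result (c : ℕ → ℝ) (ε : ℝ) (hε : 0 < ε)
    (h : ∀ q ∈ Set.Ioo 0 ε, ∃ m : ℝ, HasSum (fun n : ℕ => c n * q ^ n) m ∧
      IsMagic (ellipse (1 + q) (1 - q)) m)
    (P : MvPolynomial ℕ (PowerSeries ℝ)) (hP : P ≠ 0)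
    (hc : ∀ i, MvPolynomial.coeff i P ∈ Submodule.span ℝ {F : PowerSeries ℝ | ∃ (a : ℕ → ℚ) (C : ℚ),
      (∀ n, padicNorm 3 (a n) ≤ C ^ (n + 1)) ∧ F = PowerSeries.mk fun n => (a n : ℝ)}) :
    MvPolynomial.eval (fun i => (PowerSeries.derivative ℝ)^[i] (PowerSeries.mk c)) P ≠ 0 := by
  have e : c = fun n => 4 / Real.pi * (mc n : ℝ) := by
    funext n
    rw [← sub_eq_zero]
    refine P3.coeff_unique (δ := min ε (2 / 5)) (lt_min hε (by norm_num)) n
      (fun n => c n - 4 / Real.pi * (mc n : ℝ)) fun q hq => ?_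
    have q0 := hq.1
    have q1 := (lt_min_iff.1 hq.2).2
    obtain ⟨m, h1, h2⟩ := h q ⟨q0, (lt_min_iff.1 hq.2).1⟩
    rw [series (by linarith) (by linarith) (by linarith),
      show (1 + q - (1 - q)) / (1 + q + (1 - q)) = q by field_simp; ring,
      show 2 * (1 + q + (1 - q)) = 4 by ring] at h2
    have h3 := (summable_mc q0.le (by linarith)).hasSum.mul_left (4 / Real.pi)
    have h4 := h1.sub h3
    rw [h2, sub_self] at h4
    simpa only [sub_mul, mul_assoc] using h4
  rw [e]
  exact P3.hyper (by positivity) P hP hc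

/-- The hypothesis of `result` can be met. -/
theorem Pool.Agent.Results.MP_efb7ef_gt.NoClosedForm.exists_series :
    ∃ c : ℕ → ℝ, ∀ q ∈ Set.Ioo (0 : ℝ) (2 / 5), ∃ m : ℝ,
      HasSum (fun n : ℕ => c n * q ^ n) m ∧ IsMagic (ellipse (1 + q) (1 - q)) m := by
  refine ⟨fun n => 4 / Real.pi * (mc n : ℝ), fun q hq => ?_⟩
  have q0 := hq.1
  have q1 := hq.2
  refine ⟨_, by
    simpa only [mul_assoc] using (summable_mc q0.le (by linarith)).hasSum.mul_left (4 / Real.pi), ?_⟩
  rw [series (by linarith) (by linarith) (by linarith),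
    show (1 + q - (1 - q)) / (1 + q + (1 - q)) = q by field_simp; ring,
    show 2 * (1 + q + (1 - q)) = 4 by ring]

/-- Function form: on no interval inside `(0, 11/25)` does the magic number, as a function of `q`,
satisfy an algebraic differential equation with real polynomial coefficients. -/
theorem Pool.Agent.Results.MP_efb7ef_gt.NoClosedForm.function_form (M : ℝ → ℝ) (α β : ℝ)
    (h0 : 0 ≤ α) (h1 : α < β) (h2 : β ≤ 11 / 25)
    (hM : ∀ q ∈ Set.Ioo α β, IsMagic (ellipse (1 + q) (1 - q)) (M q))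
    (P : MvPolynomial ℕ (Polynomial ℝ)) (hP : P ≠ 0) :
    ∃ q ∈ Set.Ioo α β, MvPolynomial.eval₂ (Polynomial.evalRingHom q)
      (fun i => iteratedDeriv i M q) P ≠ 0 :=
  P3.fun_form M h0 h1 h2 hM P hP
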