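import Pool.Agent.Lib.MP_efb7ef_gt.Fail

/-! The magic number of an ellipse is not a real analytic function of the axis ratio. -/

open Pool.Agent.Lib.MP_efb7ef_gt

theorem Pool.Agent.Results.MP_efb7ef_gt.NotAnalytic.result (M : ℝ → ℝ)
    (hM : ∀ ρ ∈ Set.Ioo (0 : ℝ) 1, IsMagic (ellipse 1 ρ) (M ρ)) :
    ∃ ρ ∈ Set.Icc (11 / 29 : ℝ) (7 / 18), ¬ AnalyticAt ℝ M ρ :=
  not_analytic M hM
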