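import Pool.Agent.Lib.MP_efb7ef_gt.Ell

/-! The magic number of an ellipse with axis ratio at least 7/18, as a power series. -/

open Pool.Agent.Lib.MP_efb7ef_gt

theorem Pool.Agent.Results.MP_efb7ef_gt.Series.result (a b : ℝ) (hb : 0 < b) (hab : b ≤ a)
    (h : 7 * a ≤ 18 * b) :
    ∃ S : ℝ, HasSum (fun n : ℕ => (mc n : ℝ) * ((a - b) / (a + b)) ^ n) S ∧
      ∀ m : ℝ, IsMagic (ellipse a b) m ↔ m = 2 * (a + b) / Real.pi * S := by
  have ha : 0 < a := lt_of_lt_of_le hb hab
  refine ⟨_, (summable_mc (div_nonneg (by linarith) (by positivity)) ?_).hasSum,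
    series hb hab h⟩
  rw [div_le_iff₀ (by positivity)]
  linarith
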